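import Pool.Agent.Lib.MP_d55432_al.G2.Iface
import Pool.Agent.Lib.MP_d55432_al.H66.Relation

/-!
# G2: DENSE, the range of a homogeneous equivariant map is dense unless the two invariants are
proportional on it
-/

namespace Pool.Agent.Lib.MP_d55432_al.G2.H76

open Matrix LieAlgebra MvPolynomial
open Pool.Agent.Lib.MP_d55432_al.H66 (exists_poly_linear)

attribute [local instance 100] LieRing.ofAssociativeRing

section general

variable {K : Type*} [Field K] {L : Type*} [LieRing L] [LieAlgebra K L]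

theorem eval_aeval_poly {τ : Type*} (T : K) (w : τ → Polynomial K) (Φ : MvPolynomial τ K) :
    Polynomial.eval T (MvPolynomial.aeval w Φ) =
      MvPolynomial.eval (fun i => Polynomial.eval T (w i)) Φ := by
  induction Φ using MvPolynomial.induction_on with
  | C c => simp
  | add p q hp hq => simp only [map_add, Polynomial.eval_add, hp, hq]
  | mul_X p i hp => simp only [map_mul, Polynomial.eval_mul, hp, MvPolynomial.aeval_X,
      MvPolynomial.eval_X]

/-- Finitely many nonzero polynomial functions do not vanish at a common point. -/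
theorem exists_common_ne [CharZero K] [FiniteDimensional K L] {σ ι : Type*} (s : Finset ι)
    (q : ι → (σ → L) → K) (hq : ∀ i ∈ s, q i ∈ PolyFun K L σ) (hq0 : ∀ i ∈ s, ∃ a, q i a ≠ 0)
    {u : (σ → L) → K} (hu : u ∈ PolyFun K L σ) (hu0 : ∃ a, u a ≠ 0) :
    ∃ a, u a ≠ 0 ∧ ∀ i ∈ s, q i a ≠ 0 := by
  classical
  induction s using Finset.induction_on generalizing u with
  | empty =>
    obtain ⟨a, ha⟩ := hu0
    exact ⟨a, ha, fun i hi => absurd hi (Finset.notMem_empty i)⟩
  | insert i s his ih =>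
    have h1 := GS.mul_ne hu (hq i (Finset.mem_insert_self i s)) hu0
      (hq0 i (Finset.mem_insert_self i s))
    obtain ⟨a, ha, hs⟩ := ih (fun j hj => hq j (Finset.mem_insert_of_mem hj))
      (fun j hj => hq0 j (Finset.mem_insert_of_mem hj))
      (u := fun a => u a * q i a)
      ((PolyFun K L σ).mul_mem hu (hq i (Finset.mem_insert_self i s))) h1
    refine ⟨a, fun h0 => ha (by rw [h0, zero_mul]), fun j hj => ?_⟩
    rcases Finset.mem_insert.1 hj with rfl | hj
    · exact fun h0 => ha (by rw [h0, mul_zero])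
    · exact hs j hj

/-- Two homogeneous polynomial functions, of degrees `2 b` and `6 b`, which satisfy a polynomial
relation satisfy a linear relation between the cube of the first and the second. -/
theorem exists_proportional [CharZero K] [IsAlgClosed K] [FiniteDimensional K L] {σ : Type*}
    {u v : (σ → L) → K} (hu : u ∈ PolyFun K L σ) (hv : v ∈ PolyFun K L σ) {b : ℕ} (hb : 0 < b)
    (hut : ∀ (t : K) a, u (t • a) = (t ^ b) ^ 2 * u a)
    (hvt : ∀ (t : K) a, v (t • a) = (t ^ b) ^ 6 * v a)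
    {Φ : MvPolynomial (Fin 2) K} (hΦ : Φ ≠ 0) (h : ∀ a, eval ![u a, v a] Φ = 0) :
    ∃ α β : K, (α ≠ 0 ∨ β ≠ 0) ∧ ∀ a, α * u a ^ 3 + β * v a = 0 := by
  classical
  by_cases hu0 : ∃ a, u a ≠ 0
  swap
  · push Not at hu0
    refine ⟨1, 0, Or.inl one_ne_zero, fun a => ?_⟩
    rw [hu0 a]
    ring
  have hpt : ∃ p : Fin 2 → K, eval p (X 0 * Φ) ≠ 0 := by
    by_contra hcon
    push Not at hcon
    apply mul_ne_zero (X_ne_zero (0 : Fin 2)) hΦ
    apply MvPolynomial.funext
    intro p
    rw [hcon p, map_zero]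
  obtain ⟨p, hp⟩ := hpt
  rw [map_mul, eval_X] at hp
  have hp0 : p 0 ≠ 0 := left_ne_zero_of_mul hp
  have hp1 : eval p Φ ≠ 0 := right_ne_zero_of_mul hp
  let P : Polynomial K := MvPolynomial.aeval
    ![Polynomial.C (p 0), Polynomial.C (p 0 ^ 3) * Polynomial.X] Φ
  have hP : ∀ T, P.eval T = eval ![p 0, p 0 ^ 3 * T] Φ := by
    intro T
    rw [eval_aeval_poly]
    congr 2
    funext i
    fin_cases i <;> simp
  have hP0 : P ≠ 0 := by
    intro h0
    apply hp1
    have h1 := hP (p 1 / p 0 ^ 3)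
    rw [h0, Polynomial.eval_zero, mul_div_cancel₀ _ (pow_ne_zero 3 hp0)] at h1
    rw [h1]
    congr 2
    funext i
    fin_cases i <;> simp
  have hroot : ∀ a, u a ≠ 0 → P.eval (v a / u a ^ 3) = 0 := by
    intro a ha
    obtain ⟨t, ht⟩ := exists_root (K := K) (b := b * 2) (by omega) (p 0 / u a)
    rw [pow_mul] at ht
    have h1 := h (t • a)
    have h6 : (t ^ b) ^ 6 = (p 0 / u a) ^ 3 := by
      rw [← ht]
      ring
    rw [hut, hvt, h6, ht, div_mul_cancel₀ _ ha] at h1
    rw [hP, ← h1]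
    congr 3
    field_simp
  by_contra hcon
  push Not at hcon
  have hq0 : ∀ ρ : K, ∃ a, v a - ρ * u a ^ 3 ≠ 0 := by
    intro ρ
    obtain ⟨a, ha⟩ := hcon (-ρ) 1 (Or.inr one_ne_zero)
    refine ⟨a, fun h0 => ha ?_⟩
    rw [← h0]
    ring
  obtain ⟨a, ha, hs⟩ := exists_common_ne (K := K) (L := L) (P.roots.toFinset)
    (fun ρ a => v a - ρ * u a ^ 3)
    (fun ρ _ => (PolyFun K L σ).sub_mem hv
      ((PolyFun K L σ).smul_mem ((PolyFun K L σ).pow_mem hu 3) ρ))
    (fun ρ _ => hq0 ρ) hu hu0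
  have h1 : v a / u a ^ 3 ∈ P.roots.toFinset := by
    rw [Multiset.mem_toFinset, Polynomial.mem_roots hP0]
    exact hroot a ha
  apply hs _ h1
  rw [div_mul_cancel₀ _ (pow_ne_zero 3 ha), sub_self]

end general

variable {K : Type*} [Field K]

theorem finite_g2 : FiniteDimensional K (g2 K) :=
  inferInstanceAs (FiniteDimensional K (g2 K).toSubmodule)

theorem TT_mem (l m : K) : TT l m ∈ g2 K := by
  intro x y
  funext i
  fin_cases i <;> simp [TT, br, Matrix.mulVec_diagonal] <;> ring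

/-- The torus as a linear map. -/
def tor (K : Type*) [Field K] : (Fin 2 → K) →ₗ[K] g2 K where
  toFun v := ⟨TT (v 0) (v 1), TT_mem _ _⟩
  map_add' v w := by
    apply Subtype.ext
    change TT _ _ = TT _ _ + TT _ _
    rw [TT, TT, TT, diagonal_add]
    congr 1
    funext i
    fin_cases i <;> simp <;> ring
  map_smul' c v := by
    apply Subtype.ext
    change TT _ _ = c • TT _ _
    rw [TT, TT, ← diagonal_smul]
    congr 1
    funext i
    fin_cases i <;> simp <;> ring

theorem tor_coe (v : Fin 2 → K) : (tor K v).1 = TT (v 0) (v 1) := rfl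

theorem eval_mem_of_mem {X : Type*} (A : Subalgebra K (X → K)) {p q : X → K} (hp : p ∈ A)
    (hq : q ∈ A) (Φ : MvPolynomial (Fin 2) K) : (fun x => eval ![p x, q x] Φ) ∈ A := by
  induction Φ using MvPolynomial.induction_on with
  | C c =>
    simp only [eval_C]
    exact A.algebraMap_mem c
  | add P Q hP hQ =>
    simp only [map_add]
    exact A.add_mem hP hQ
  | mul_X P i hP =>
    simp only [map_mul, eval_X]
    refine A.mul_mem hP ?_
    fin_cases i
    · exact hp
    · exact hq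

/-- **DENSE.** -/
theorem dense (K : Type*) [Field K] [IsAlgClosed K] [CharZero K] (hNRM : NRM_S K)
    (hSEMI : SEMI_S K) (hDIAG : DIAG_S K) (hINV : INV_S K) (hSIMPLE : SIMPLE_S K) :
    DENSE_S K := by
  have : LieAlgebra.IsSimple K (g2 K) := hSIMPLE
  have : FiniteDimensional K (g2 K) := finite_g2
  obtain ⟨hI1, hI2, hI3, hI4, hI5⟩ := hINV
  intro m b f hb hf heq hhom hind g hg hgf
  by_contra hcon
  -- a semisimple element where `g` does not vanish
  have hss : ∃ x : g2 K, (LieAlgebra.ad K (g2 K) x).IsSemisimple ∧ g x ≠ 0 := by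
    by_contra hno
    push Not at hno
    apply hcon
    intro y
    exact GS.closure_semisimple (σ := Fin 1) (fun a : Fin 1 → g2 K => a 0)
      (fun ψ => PolyFun_coord 0 ψ) (fun φ a => rfl) g hg (fun a ha => hno _ ha) (fun _ => y)
  obtain ⟨x₀, hx₀, hgx₀⟩ := hss
  obtain ⟨l₀, m₀, c, c', Hc, hx₀'⟩ := hDIAG x₀.1 x₀.2 (hSEMI x₀ hx₀)
  obtain ⟨G, hG⟩ := exists_poly_linear
    (((conjG c c' Hc).toLinearEquiv : g2 K →ₗ[K] g2 K) ∘ₗ tor K) hg
  have hG' : ∀ v, g (conjG c c' Hc (tor K v)) = eval v G := fun v => hG v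
  have hG0 : G ≠ 0 := by
    rintro rfl
    apply hgx₀
    have h1 : conjG c c' Hc (tor K ![l₀, m₀]) = x₀ := by
      apply Subtype.ext
      rw [conjG_coe, tor_coe, hx₀']
      rfl
    rw [← h1, hG', map_zero]
  obtain ⟨Φ, hΦ, hΦG⟩ := hNRM G hG0
  have hrel : ∀ a, eval ![s2 (f a).1, s6 (f a).1] Φ = 0 := by
    apply GS.closure_semisimple f hf heq (fun x : g2 K => eval ![s2 x.1, s6 x.1] Φ)
      (eval_mem_of_mem _ hI4 hI5 Φ)
    intro a ha
    obtain ⟨l, n, hC⟩ := hDIAG (f a).1 (f a).2 (hSEMI (f a) ha)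
    obtain ⟨i1, i2⟩ := hI1 _ _ hC
    obtain ⟨i3, i4⟩ := hI3 l n
    obtain ⟨d, d', Hd, hfa⟩ := hC
    have h1 : conjG d d' Hd (tor K ![l, n]) = f a := by
      apply Subtype.ext
      rw [conjG_coe, tor_coe, hfa]
      rfl
    have h2 := heq ((conjG d d' Hd).symm.trans (conjG c c' Hc)) a
    rw [LieEquiv.trans_apply, ← h1, LieEquiv.symm_apply_apply] at h2
    have h3 := hgf (fun i => ((conjG d d' Hd).symm.trans (conjG c c' Hc)) (a i))
    rw [h2, hG'] at h3
    have h4 := hΦG l n h3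
    change eval ![s2 (f a).1, s6 (f a).1] Φ = 0
    rw [i1, i2, i3, i4]
    exact h4
  obtain ⟨α, β, hαβ, hlin⟩ := exists_proportional (K := K) (L := g2 K)
    (u := fun a => s2 (f a).1) (v := fun a => s6 (f a).1)
    (polyOn_comp K (PolyFun K (g2 K) (Fin m)) f hf hI4)
    (polyOn_comp K (PolyFun K (g2 K) (Fin m)) f hf hI5) hb
    (fun t a => by
      change s2 (f (t • a)).1 = _
      rw [hhom]
      exact (hI2 (t ^ b) (f a).1).1)
    (fun t a => by
      change s6 (f (t • a)).1 = _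
      rw [hhom]
      exact (hI2 (t ^ b) (f a).1).2)
    hΦ hrel
  obtain ⟨h1, h2⟩ := hind α β hlin
  rcases hαβ with h | h
  · exact h h1
  · exact h h2

end Pool.Agent.Lib.MP_d55432_al.G2.H76
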